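import Pool.Agent.Lib.MP_29ab50_al.TT.Split

/-! Periodic commutative semigroups in power semigroups of groups of a given torsion type. -/

set_option autoImplicit false

open scoped Pointwise Classical

namespace Pool.Agent.Lib.MP_29ab50_al.TT

universe u

theorem coe_iter {S : Type u} [CommSemigroup S] (a : S) (n : ℕ) :
    (((fun y => a * y)^[n] a : S) : WithOne S) = (a : WithOne S) ^ (n + 1) := by
  induction n with
  | zero => simp
  | succ n ih => rw [Function.iterate_succ_apply', WithOne.coe_mul, ih, ← pow_succ']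

/-- In a periodic commutative monoid a power of `y` acts trivially on the classes as soon as it
kills the group component of `y`. -/
theorem pow_mem_triv {M : Type u} [CommMonoid M] {y : M} {k n : ℕ}
    (hk : IsIdempotentElem (y ^ k)) (hn : (y * y ^ k) ^ n * y ^ k = y ^ k) (hn0 : 0 < n) :
    y ^ n ∈ triv M := by
  intro x z h
  have h1 : ∀ j : ℕ, x * (y ^ n * z) ^ j = x := by
    intro j
    induction j with
    | zero => simp
    | succ j ih => rw [pow_succ', ← mul_assoc, ← mul_assoc, h, ih]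
  have h2 : x * y ^ k = x := by
    have h3 : (y ^ k) ^ n * y ^ k = (y ^ k) ^ n := by
      rw [← pow_succ, hk.pow_eq (Nat.succ_ne_zero n), hk.pow_eq hn0.ne']
    have h4 : (y ^ n * z) ^ k = (y ^ k) ^ n * z ^ k := by
      rw [mul_pow, ← pow_mul, ← pow_mul, mul_comm n k]
    calc x * y ^ k = x * (y ^ n * z) ^ k * y ^ k := by rw [h1]
      _ = x * ((y ^ k) ^ n * y ^ k * z ^ k) := by rw [h4, mul_assoc, mul_right_comm _ (z ^ k)]
      _ = x := by rw [h3, ← h4, h1]
  rw [mul_pow, hk.pow_eq hn0.ne', mul_assoc, hk.eq] at hn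
  calc x * y ^ n = x * y ^ k * y ^ n := by rw [h2]
    _ = x * (y ^ n * y ^ k) := by rw [mul_assoc, mul_comm (y ^ k)]
    _ = x := by rw [hn, h2]

theorem suff (S : Type u) [CommSemigroup S]
    (hS : ∀ a : S, {x : S | ∃ n : ℕ, x = (fun y => a * y)^[n] a}.Finite)
    (D : Set ℕ) (h0 : 0 ∉ D) (h2 : ∃ n ∈ D, 2 ≤ n)
    (hD : ∀ m ∈ D, ∀ n ∈ D, ∃ k ∈ D, m ∣ k ∧ n ∣ k)
    (h : ∀ a : S, (∃ k, 0 < k ∧ (fun y => a * y)^[k] a = a) →
      ∃ n ∈ D, (fun y => a * y)^[n] a = a) :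
    ∃ (G : Type u) (_ : CommGroup G), (∀ g : G, ∃ n ∈ D, g ^ n = 1) ∧
      ∃ f : S →ₙ* Set G, Function.Injective f ∧ ∀ s : S, (f s).Nonempty := by
  have hpos : ∀ n ∈ D, 0 < n := fun n hn => Nat.pos_of_ne_zero fun e => h0 (e ▸ hn)
  obtain ⟨n0, hn0, hn2⟩ := h2
  have key : ∀ s : WithOne S, ∃ n ∈ D, 2 ≤ n ∧ s ^ n ∈ triv (WithOne S) := by
    intro s
    induction s using WithOne.recOneCoe with
    | one => exact ⟨n0, hn0, hn2, by rw [one_pow]; exact Submonoid.one_mem _⟩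
    | coe x =>
      obtain ⟨k, hk2, hk⟩ := U.exists_idem_pow (x : WithOne S) (by
        refine ((hS x).image (fun y : S => (y : WithOne S))).subset ?_
        rintro _ ⟨j, rfl⟩
        exact ⟨_, ⟨j, rfl⟩, coe_iter x j⟩)
      have ha : (((fun y => x * y)^[k] x : S) : WithOne S) = x * (x : WithOne S) ^ k := by
        rw [coe_iter, pow_succ']
      have hak : ((x : WithOne S) * (x : WithOne S) ^ k) ^ k = (x : WithOne S) ^ k := by
        rw [mul_pow, hk.pow_eq (by omega), hk.eq]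
      obtain ⟨n, hn, hx⟩ := h ((fun y => x * y)^[k] x) ⟨k, by omega, WithOne.coe_inj.1 (by
        rw [coe_iter, ha, pow_succ', hak, mul_assoc, hk.eq])⟩
      have hx' := congrArg (fun y : S => (y : WithOne S)) hx
      simp only [coe_iter _ n, ha] at hx'
      have h3 : ((x : WithOne S) * (x : WithOne S) ^ k) ^ n * (x : WithOne S) ^ k =
          (x : WithOne S) ^ k := by
        obtain ⟨j, rfl⟩ : ∃ j, k = j + 1 := ⟨k - 1, by omega⟩
        calc _ = ((x : WithOne S) * (x : WithOne S) ^ (j + 1)) ^ n *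
              ((x : WithOne S) * (x : WithOne S) ^ (j + 1)) ^ (j + 1) := by rw [hak]
          _ = ((x : WithOne S) * (x : WithOne S) ^ (j + 1)) ^ (n + 1) *
              ((x : WithOne S) * (x : WithOne S) ^ (j + 1)) ^ j := by
            rw [← pow_add, ← pow_add, add_assoc, add_comm 1 j]
          _ = _ := by rw [hx', ← pow_succ', hak]
      obtain ⟨m, hm, ⟨c, hc⟩, hm0⟩ := hD n hn n0 hn0
      refine ⟨m, hm, hn2.trans (Nat.le_of_dvd (hpos m hm) hm0), ?_⟩
      rw [hc, pow_mul]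
      exact Submonoid.pow_mem _ (pow_mem_triv hk h3 (hpos n hn)) c
  choose N hN hN2 hI using key
  have hD' : ∀ m n : ℕ, ∃ k, m ∈ D → n ∈ D → k ∈ D ∧ m ∣ k ∧ n ∣ k := by
    intro m n
    by_cases hmn : m ∈ D ∧ n ∈ D
    · obtain ⟨k, hk⟩ := hD m hmn.1 n hmn.2
      exact ⟨k, fun _ _ => hk⟩
    · exact ⟨0, fun h1 h2 => absurd ⟨h1, h2⟩ hmn⟩
  choose c hc using hD'
  obtain ⟨G, hG, htor, f, hf, hne⟩ :=
    monoid_embed ⟨D, N, c, hpos, hN, fun a ha b hb => hc a b ha hb⟩ hN2 hI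
  refine ⟨G, hG, htor, f.comp WithOne.coeMulHom, hf.comp ?_, fun s => hne _⟩
  intro a b hab
  exact WithOne.coe_inj.1 hab

/-- A set that lies in a subgroup of the power semigroup of a periodic group is moved by all its
elements in the same way. -/
theorem set_pow {G : Type u} [CommGroup G] (hG : ∀ g : G, ∃ n, 0 < n ∧ g ^ n = 1) {A : Set G}
    {k : ℕ} (hk : 0 < k) (hA : A ^ (k + 1) = A) {g : G} (hg : g ∈ A) {n : ℕ} (hn : g ^ n = 1) :
    A ^ (n + 1) = A := by
  have h1 : ∀ w ∈ A ^ k, ∀ a ∈ A, a * w ∈ A := by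
    intro w hw a ha
    rw [← hA, pow_succ']
    exact Set.mul_mem_mul ha hw
  have h2 : ∀ w ∈ A ^ k, ∀ a ∈ A, a * w⁻¹ ∈ A := by
    intro w hw a ha
    obtain ⟨m, hm, hw1⟩ := hG w
    obtain ⟨j, rfl⟩ : ∃ j, m = j + 1 := ⟨m - 1, by omega⟩
    have h3 : ∀ i : ℕ, a * w ^ i ∈ A := by
      intro i
      induction i with
      | zero => simpa using ha
      | succ i ih => rw [pow_succ, ← mul_assoc]; exact h1 w hw _ ih
    rw [pow_succ] at hw1
    rw [← eq_inv_of_mul_eq_one_left hw1]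
    exact h3 j
  obtain ⟨j, rfl⟩ : ∃ j, k = j + 1 := ⟨k - 1, by omega⟩
  have h4 : ∀ a ∈ A, ∀ b ∈ A, a * b * g⁻¹ ∈ A := by
    intro a ha b hb
    have h5 : b * g ^ j ∈ A ^ (j + 1) := by
      rw [pow_succ']
      exact Set.mul_mem_mul hb (Set.pow_mem_pow hg)
    have h6 := h2 _ (Set.pow_mem_pow (n := j + 1) hg) _ (h1 _ h5 a ha)
    have h7 : a * (b * g ^ j) * (g ^ (j + 1))⁻¹ = a * b * g⁻¹ := by group
    rwa [h7] at h6
  have h8 : ∀ i : ℕ, ∀ x, x ∈ A ^ (i + 1) ↔ x * (g ^ i)⁻¹ ∈ A := by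
    intro i
    induction i with
    | zero => simp
    | succ i ih =>
      intro x
      rw [pow_succ A (i + 1)]
      constructor
      · rintro ⟨y, hy, b, hb, rfl⟩
        have h9 := h4 _ ((ih y).1 hy) b hb
        have h10 : y * (g ^ i)⁻¹ * b * g⁻¹ = y * b * (g ^ (i + 1))⁻¹ := by
          rw [mul_right_comm y, pow_succ', mul_inv_rev, mul_assoc (y * b)]
        rwa [h10] at h9
      · intro hx
        refine ⟨x * g⁻¹, (ih _).2 ?_, g, hg, by simp⟩
        rwa [pow_succ, mul_inv_rev, ← mul_assoc] at hx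
  ext x
  rw [h8, hn, inv_one, mul_one]

theorem nec (S : Type u) [CommSemigroup S] (D : Set ℕ) (h0 : 0 ∉ D) {G : Type u} [CommGroup G]
    (hG : ∀ g : G, ∃ n ∈ D, g ^ n = 1) (f : S → Set G) (hf : Function.Injective f)
    (hne : ∀ s, (f s).Nonempty) (hm : ∀ s t, f (s * t) = f s * f t) (a : S) {k : ℕ} (hk : 0 < k)
    (ha : (fun y => a * y)^[k] a = a) : ∃ n ∈ D, (fun y => a * y)^[n] a = a := by
  have h1 : ∀ n : ℕ, f ((fun y => a * y)^[n] a) = f a ^ (n + 1) := by
    intro n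
    induction n with
    | zero => simp
    | succ n ih => rw [Function.iterate_succ_apply', hm, ih, ← pow_succ']
  obtain ⟨g, hg⟩ := hne a
  obtain ⟨n, hn, hgn⟩ := hG g
  refine ⟨n, hn, hf ?_⟩
  rw [h1]
  refine set_pow (fun x => ?_) hk (by rw [← h1, ha]) hg hgn
  obtain ⟨m, hm, hx⟩ := hG x
  exact ⟨m, Nat.pos_of_ne_zero fun e => h0 (e ▸ hm), hx⟩

end Pool.Agent.Lib.MP_29ab50_al.TT
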