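import Pool.Agent.Lib.MP_29ab50_al.U

/-! The splitting construction with prescribed orders of the variables. -/

set_option autoImplicit false

open scoped Pointwise Classical

namespace Pool.Agent.Lib.MP_29ab50_al.TT

open U (step root root_order W vars depth depth_le_of_mem_vars coord coord_apply)

universe u

/-- Allowed exponents `D`, an exponent `N s` for each `s`, and common multiples `c`. -/
structure Dat (M : Type u) where
  D : Set ℕ
  N : M → ℕ
  c : ℕ → ℕ → ℕ
  pos : ∀ n ∈ D, 0 < n
  mem : ∀ s, N s ∈ D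
  cm : ∀ a ∈ D, ∀ b ∈ D, c a b ∈ D ∧ a ∣ c a b ∧ b ∣ c a b

variable {M : Type u} [CommMonoid M] (P : Dat M)

/-- An exponent killing the group part. -/
def ord : W M → ℕ
  | .idem s => P.N s
  | .base s => P.N s
  | .mul a b => P.c (ord a) (ord b)
  | .left a s t => P.c (ord a) (P.c (P.N s) (P.N t))
  | .right a s t => P.c (ord a) (P.c (P.N s) (P.N t))

/-- The generator attached to a variable. -/
noncomputable def gen (v : W M) : W M → ℂˣ := Pi.mulSingle v (root (ord P v))

/-- Evaluation of expressions. -/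
noncomputable def ev : W M → (W M → ℂˣ) × M
  | .idem s => (1, s ^ P.N s)
  | .base s => (gen P (.base s), s)
  | .mul a b => ev a * ev b
  | .left a s t => if (ev a).2 = s * t then (gen P (.left a s t), s) else 1
  | .right a s t => if (ev a).2 = s * t then ((ev a).1 * (gen P (.left a s t))⁻¹, t) else 1

omit [CommMonoid M] in
theorem ord_mem (w : W M) : ord P w ∈ P.D := by
  induction w with
  | idem s => exact P.mem s
  | base s => exact P.mem s
  | mul a b iha ihb => exact (P.cm _ iha _ ihb).1
  | left a s t ih => exact (P.cm _ ih _ (P.cm _ (P.mem s) _ (P.mem t)).1).1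
  | right a s t ih => exact (P.cm _ ih _ (P.cm _ (P.mem s) _ (P.mem t)).1).1

omit [CommMonoid M] in
theorem ord_pos (w : W M) : 0 < ord P w := P.pos _ (ord_mem P w)

omit [CommMonoid M] in
theorem ord_dvd (a : W M) (s t : M) : ord P a ∣ ord P (.left a s t) ∧
    P.N s ∣ ord P (.left a s t) ∧ P.N t ∣ ord P (.left a s t) := by
  have h1 := P.cm _ (P.mem s) _ (P.mem t)
  have h2 := P.cm _ (ord_mem P a) _ h1.1
  exact ⟨h2.2.1, h1.2.1.trans h2.2.2, h1.2.2.trans h2.2.2⟩

omit [CommMonoid M] in
theorem gen_pow (v : W M) : gen P v ^ ord P v = 1 := by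
  unfold gen
  rw [← Pi.mulSingle_pow]
  have := pow_orderOf_eq_one (root (ord P v))
  rw [root_order (ord_pos P v)] at this
  rw [this, Pi.mulSingle_one]

omit [CommMonoid M] in
theorem gen_self (v : W M) : gen P v v = root (ord P v) := by
  simp [gen]

omit [CommMonoid M] in
theorem gen_ne {v u : W M} (h : u ≠ v) : gen P v u = 1 := by
  simp [gen, Pi.mulSingle_eq_of_ne h]

theorem pow_one_of_dvd {G : Type*} [Monoid G] {g : G} {m n : ℕ} (h : g ^ m = 1) (hd : m ∣ n) :
    g ^ n = 1 := by
  obtain ⟨k, rfl⟩ := hd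
  rw [pow_mul, h, one_pow]

theorem ev_pow (w : W M) : (ev P w).1 ^ ord P w = 1 := by
  induction w with
  | idem s => simp [ev]
  | base s => exact gen_pow P _
  | mul a b iha ihb =>
    have h := P.cm _ (ord_mem P a) _ (ord_mem P b)
    simp only [ev, ord, Prod.fst_mul, mul_pow]
    rw [pow_one_of_dvd iha h.2.1, pow_one_of_dvd ihb h.2.2, one_mul]
  | left a s t ih =>
    simp only [ev]
    split_ifs
    · exact gen_pow P _
    · simp
  | right a s t ih =>
    simp only [ev]
    split_ifs
    · have h1 := gen_pow P (.left a s t)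
      have h2 := pow_one_of_dvd ih (ord_dvd P a s t).1
      simp only [ord] at h1 h2 ⊢
      rw [mul_pow, inv_pow, h1, h2]
      simp
    · simp

theorem ev_supp (w : W M) (v : W M) (hv : v ∉ vars w) : (ev P w).1 v = 1 := by
  induction w with
  | idem s => simp [ev]
  | base s =>
    simp only [vars, Finset.mem_singleton] at hv
    exact gen_ne P hv
  | mul a b iha ihb =>
    simp only [vars, Finset.mem_union, not_or] at hv
    simp [ev, iha hv.1, ihb hv.2]
  | left a s t ih =>
    simp only [vars, Finset.mem_insert, not_or] at hv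
    simp only [ev]
    split_ifs
    · exact gen_ne P hv.1
    · simp
  | right a s t ih =>
    simp only [vars, Finset.mem_insert, not_or] at hv
    simp only [ev]
    split_ifs
    · simp [ih hv.2, gen_ne P hv.1]
    · simp

/-- The values of the expressions whose variables lie in `A`. -/
def TT (A : Finset (W M)) : Submonoid ((W M → ℂˣ) × M) where
  carrier := {y | ∃ w, vars w ⊆ A ∧ ev P w = y}
  one_mem' := ⟨.idem 1, by simp [vars], by simp [ev]⟩
  mul_mem' := by
    rintro _ _ ⟨a, ha, rfl⟩ ⟨b, hb, rfl⟩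
    exact ⟨.mul a b, Finset.union_subset ha hb, rfl⟩

theorem mem_TT {A : Finset (W M)} {w : W M} (h : vars w ⊆ A) : ev P w ∈ TT P A := ⟨w, h, rfl⟩

theorem idem_mem (A : Finset (W M)) (s : M) (k : ℕ) :
    ((1 : W M → ℂˣ), s ^ (P.N s * k)) ∈ TT P A := by
  have h := (TT P A).pow_mem (mem_TT P (w := .idem s) (by simp [vars])) k
  simpa [ev, pow_mul] using h

theorem TT_le (A : Finset (W M)) (v : W M) (hmax : ∀ u ∈ A, depth u ≤ depth v)
    (U : Submonoid ((W M → ℂˣ) × M)) (hU : TT P (A.erase v) ≤ U)
    (hb : ∀ s, v = .base s → ev P (.base s) ∈ U)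
    (hl : ∀ a s t, v = .left a s t → vars a ⊆ A →
      ev P (.left a s t) ∈ U ∧ ev P (.right a s t) ∈ U) : TT P A ≤ U := by
  rintro _ ⟨w, hw, rfl⟩
  have key : ∀ a s t, insert (W.left a s t) (vars a) ⊆ A → v ≠ .left a s t →
      insert (W.left a s t) (vars a) ⊆ A.erase v := by
    intro a s t h hne u hu
    refine Finset.mem_erase.2 ⟨?_, h hu⟩
    rintro rfl
    rcases Finset.mem_insert.1 hu with h1 | h1
    · exact hne h1
    · have h2 := depth_le_of_mem_vars a u h1
      have h3 := hmax _ (h (Finset.mem_insert_self _ _))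
      simp only [depth] at h3
      omega
  induction w with
  | idem s => exact hU (mem_TT P (by simp [vars]))
  | base s =>
    by_cases h : v = .base s
    · exact hb s h
    · refine hU (mem_TT P ?_)
      intro u hu
      refine Finset.mem_erase.2 ⟨?_, hw hu⟩
      simp only [vars, Finset.mem_singleton] at hu
      rw [hu]; exact fun h' => h h'.symm
  | mul a b iha ihb =>
    simp only [vars] at hw
    exact U.mul_mem (iha (Finset.union_subset_left hw)) (ihb (Finset.union_subset_right hw))
  | left a s t ih =>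
    simp only [vars] at hw
    by_cases h : v = .left a s t
    · exact (hl a s t h ((Finset.subset_insert _ _).trans hw)).1
    · exact hU (mem_TT P (key a s t hw h))
  | right a s t ih =>
    simp only [vars] at hw
    by_cases h : v = .left a s t
    · exact (hl a s t h ((Finset.subset_insert _ _).trans hw)).2
    · exact hU (mem_TT P (key a s t hw h))

theorem coord_erase (A : Finset (W M)) (v : W M) : ∀ t ∈ TT P (A.erase v), coord v t = 1 := by
  rintro _ ⟨w, hw, rfl⟩
  exact ev_supp P w v (fun h => by simpa using hw h)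

theorem elim_one (A : Finset (W M)) (v : W M)
    (hmax : ∀ u ∈ A, depth u ≤ depth v) (y : (W M → ℂˣ) × M) (hy : y ∈ TT P A)
    (hy1 : y.1 v = 1) : y ∈ TT P (A.erase v) := by
  have hN : ∀ s, 0 < P.N s := fun s => P.pos _ (P.mem s)
  by_cases h1 : ∃ s, v = .base s
  · obtain ⟨s, rfl⟩ := h1
    set p := ev P (.base s) with hpdef
    have hpn : p ^ P.N s ∈ TT P (A.erase (.base s)) := by
      have h := idem_mem P (A.erase (.base s)) s 1
      have h2 : p ^ P.N s = (1, s ^ (P.N s * 1)) := by
        have := gen_pow P (.base s)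
        simp only [ord] at this
        simp [hpdef, ev, this]
      rwa [h2]
    have hNs : P.N s = (P.N s - 1) + 1 := by have := hN s; omega
    have hcp : coord (.base s) p = root (P.N s) := gen_self P _
    refine step (TT P (A.erase (.base s))) p (p ^ (P.N s - 1)) (P.N s) (coord (.base s)) (root (P.N s))
      (root_order (hN s)) (coord_erase P A _) hcp ?_ ?_ hpn ?_ y ?_ hy1
    · rw [map_pow, hcp, eq_inv_iff_mul_eq_one, ← pow_succ, ← hNs]
      have := pow_orderOf_eq_one (root (P.N s))
      rwa [root_order (hN s)] at this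
    · rw [← pow_succ', ← hNs]; exact hpn
    · rw [← pow_mul, mul_comm, pow_mul]; exact Submonoid.pow_mem _ hpn _
    · refine TT_le P A _ hmax _ le_sup_left ?_ ?_ hy
      · intro s' hs'
        cases hs'
        exact Submonoid.mem_sup_right (Submonoid.subset_closure (by simp [hpdef]))
      · intro a s' t h; cases h
  by_cases h2 : ∃ a s t, v = .left a s t ∧ vars a ⊆ A ∧ (ev P a).2 = s * t
  · obtain ⟨a, s, t, rfl, ha, hst⟩ := h2
    have hva : W.left a s t ∉ vars a := by
      intro h
      have := depth_le_of_mem_vars a _ h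
      simp only [depth] at this
      omega
    have ha' : vars a ⊆ A.erase (.left a s t) := by
      intro u hu
      refine Finset.mem_erase.2 ⟨?_, ha hu⟩
      rintro rfl
      exact hva hu
    have hp : ev P (.left a s t) = (gen P (.left a s t), s) := by simp [ev, hst]
    have hq : ev P (.right a s t) = ((ev P a).1 * (gen P (.left a s t))⁻¹, t) := by
      simp [ev, hst]
    have hg := gen_pow P (.left a s t)
    refine step (TT P (A.erase (.left a s t))) (ev P (.left a s t)) (ev P (.right a s t))
      (ord P (.left a s t)) (coord (.left a s t)) (root (ord P (.left a s t)))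
      (root_order (ord_pos P _)) (coord_erase P A _) ?_ ?_ ?_ ?_ ?_ y ?_ hy1
    · rw [hp]; exact gen_self P _
    · rw [hq, coord_apply]
      simp [ev_supp P a _ hva, gen_self]
    · have : ev P (.left a s t) * ev P (.right a s t) = ev P a := by
        rw [hp, hq]
        ext1
        · simp
        · simp [hst]
      rw [this]; exact mem_TT P ha'
    · obtain ⟨k, hk⟩ := (ord_dvd P a s t).2.1
      have h := idem_mem P (A.erase (.left a s t)) s k
      have h2 : ev P (.left a s t) ^ ord P (.left a s t) = (1, s ^ (P.N s * k)) := by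
        rw [hp]
        ext1
        · simpa using hg
        · rw [hk, Prod.pow_snd]
      rwa [h2]
    · obtain ⟨k, hk⟩ := (ord_dvd P a s t).2.2
      have h := idem_mem P (A.erase (.left a s t)) t k
      have h2 : ev P (.right a s t) ^ ord P (.left a s t) = (1, t ^ (P.N t * k)) := by
        ext1
        · exact ev_pow P (.right a s t)
        · rw [hq, hk, Prod.pow_snd]
      rwa [h2]
    · refine TT_le P A _ hmax _ le_sup_left ?_ ?_ hy
      · intro s' hs'; cases hs'
      · intro a' s' t' h _
        cases h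
        exact ⟨Submonoid.mem_sup_right (Submonoid.subset_closure (by simp)),
          Submonoid.mem_sup_right (Submonoid.subset_closure (by simp))⟩
  · refine TT_le P A v hmax _ le_rfl ?_ ?_ hy
    · intro s hs; exact absurd ⟨s, hs⟩ h1
    · intro a s t hv ha
      have hst : ¬ (ev P a).2 = s * t := fun h => h2 ⟨a, s, t, hv, ha, h⟩
      simp only [ev, hst, if_false]
      exact ⟨Submonoid.one_mem _, Submonoid.one_mem _⟩

theorem elim_all (c : M) (B : Finset (W M)) :
    ∀ y ∈ TT P (insert (.base c) B), (∀ v, v ≠ .base c → y.1 v = 1) →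
      y ∈ TT P {.base c} := by
  induction B using Finset.induction_on_max_value depth with
  | empty => intro y hy _; simpa using hy
  | insert v B hvB hmax ih =>
    intro y hy hy1
    by_cases hv : v = .base c
    · subst hv
      rw [Finset.insert_idem] at hy
      exact ih y hy hy1
    · refine ih y ?_ hy1
      have h := elim_one P _ v ?_ y hy (hy1 v hv)
      · have e : (insert (W.base c) (insert v B)).erase v = insert (W.base c) B := by
          rw [Finset.insert_comm, Finset.erase_insert]
          simp [hv, hvB]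
        rwa [e] at h
      · intro u hu
        rcases Finset.mem_insert.1 hu with rfl | hu
        · simp [depth]
        rcases Finset.mem_insert.1 hu with rfl | hu
        · exact le_rfl
        · exact hmax u hu

theorem TT_empty (E : Submonoid M) (hI : ∀ s, s ^ P.N s ∈ E) :
    ∀ y ∈ TT P (∅ : Finset (W M)), y.1 = 1 ∧ y.2 ∈ E := by
  rintro _ ⟨w, hw, rfl⟩
  induction w with
  | idem s => exact ⟨rfl, hI s⟩
  | base s => simp [vars] at hw
  | mul a b iha ihb =>
    simp only [vars] at hw
    have h1 := iha (Finset.union_subset_left hw)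
    have h2 := ihb (Finset.union_subset_right hw)
    refine ⟨by simp [ev, h1.1, h2.1], ?_⟩
    exact E.mul_mem h1.2 h2.2
  | left a s t ih => simp [vars] at hw
  | right a s t ih => simp [vars] at hw

theorem label (hN : ∀ s, 2 ≤ P.N s) (E : Submonoid M) (hI : ∀ s, s ^ P.N s ∈ E) (c b : M)
    (w : W M) (hw : ev P w = (gen P (.base c), b)) : ∃ e ∈ E, b = c * e := by
  have hN0 : ∀ s, 0 < P.N s := fun s => by have := hN s; omega
  have h1 : ev P w ∈ TT P {.base c} := by
    refine elim_all P c (vars w) _ (mem_TT P (Finset.subset_insert _ _)) ?_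
    intro v hv
    rw [hw]; exact gen_ne P hv
  have h2 : ev P w ∈ TT P ∅ ⊔ Submonoid.closure {ev P (.base c)} := by
    refine TT_le P {.base c} (.base c) (by simp) _ (by simp) ?_ ?_ h1
    · intro s hs; cases hs
      exact Submonoid.mem_sup_right (Submonoid.subset_closure (by simp))
    · intro a s t h; cases h
  obtain ⟨t, ht, z, hz, h3⟩ := Submonoid.mem_sup.1 h2
  obtain ⟨i, rfl⟩ := Submonoid.mem_closure_singleton.1 hz
  obtain ⟨ht1, ht2⟩ := TT_empty P E hI t ht
  rw [hw] at h3
  have h4 := congrArg (fun y => y.1 (W.base c)) h3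
  have h5 := congrArg Prod.snd h3
  simp only [ev, Prod.fst_mul, ht1, one_mul, Prod.pow_fst, Pi.pow_apply, gen_self, ord] at h4
  simp only [ev, Prod.snd_mul, Prod.pow_snd] at h5
  have h6 : i ≡ 1 [MOD P.N c] := by
    have : root (P.N c) ^ i = root (P.N c) ^ 1 := by rw [h4, pow_one]
    rwa [pow_eq_pow_iff_modEq, root_order (hN0 c)] at this
  have hi : 1 ≤ i := by
    by_contra h
    have h0 : i = 0 := by omega
    rw [h0] at h6
    have := Nat.le_of_dvd one_pos ((Nat.modEq_iff_dvd' zero_le_one).1 h6)
    have := hN c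
    omega
  obtain ⟨k, hk⟩ := (Nat.modEq_iff_dvd' hi).1 h6.symm
  refine ⟨t.2 * (c ^ P.N c) ^ k, E.mul_mem ht2 (E.pow_mem (hI c) k), ?_⟩
  have : i = 1 + P.N c * k := by omega
  rw [← h5, this, pow_add, pow_one, pow_mul, mul_left_comm]

/-- The elements killed by an allowed exponent. -/
def tor : Subgroup (W M → ℂˣ) where
  carrier := {g | ∃ n ∈ P.D, g ^ n = 1}
  one_mem' := ⟨_, P.mem 1, one_pow _⟩
  mul_mem' := by
    rintro a b ⟨m, hm, ha⟩ ⟨n, hn, hb⟩
    have h := P.cm m hm n hn
    exact ⟨_, h.1, by rw [mul_pow, pow_one_of_dvd ha h.2.1, pow_one_of_dvd hb h.2.2, one_mul]⟩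
  inv_mem' := by
    rintro a ⟨m, hm, ha⟩
    exact ⟨m, hm, by rw [inv_pow, ha, inv_one]⟩

/-- The elements that act trivially on every class of mutually dividing elements. -/
def triv (M : Type u) [CommMonoid M] : Submonoid M where
  carrier := {e | ∀ x z, x * e * z = x → x * e = x}
  one_mem' := fun x _ _ => mul_one x
  mul_mem' := by
    intro e e' he he' x z h
    have h1 : x * e = x := he x (e' * z) (by rw [← mul_assoc, mul_assoc x e e', h])
    rw [← mul_assoc, h1] at h ⊢
    exact he' x z h

/-- The embedding for a commutative monoid. -/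
theorem monoid_embed (hN : ∀ s, 2 ≤ P.N s) (hI : ∀ s, s ^ P.N s ∈ triv M) :
    ∃ (G : Type u) (_ : CommGroup G), (∀ g : G, ∃ n ∈ P.D, g ^ n = 1) ∧
      ∃ f : M →ₙ* Set G, Function.Injective f ∧ ∀ s : M, (f s).Nonempty := by
  have htor : ∀ w : W M, (ev P w).1 ∈ tor P := fun w => ⟨ord P w, ord_mem P w, ev_pow P w⟩
  let φ : M → Set (tor P) := fun s => {g | ∃ w, ev P w = (g.1, s)}
  have hbase : ∀ s, (⟨(ev P (.base s)).1, htor _⟩ : tor P) ∈ φ s := fun s => ⟨.base s, rfl⟩
  refine ⟨tor P, inferInstance, fun g => ?_, ⟨φ, ?_⟩, ?_, fun s => ⟨_, hbase s⟩⟩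
  · obtain ⟨n, hn, hg⟩ := g.2
    exact ⟨n, hn, Subtype.ext hg⟩
  · intro s t
    ext g
    constructor
    · rintro ⟨w, hw⟩
      have hst : (ev P w).2 = s * t := by rw [hw]
      refine ⟨⟨(ev P (.left w s t)).1, htor _⟩, ⟨.left w s t, by simp [ev, hst]⟩,
        ⟨(ev P (.right w s t)).1, htor _⟩, ⟨.right w s t, by simp [ev, hst]⟩, ?_⟩
      ext1
      simp [ev, hw]
    · rintro ⟨g1, ⟨w1, h1⟩, g2, ⟨w2, h2⟩, rfl⟩
      exact ⟨.mul w1 w2, by simp [ev, h1, h2]⟩
  · intro a b hab
    have hab' : φ a = φ b := hab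
    obtain ⟨w1, h1⟩ : (⟨(ev P (.base a)).1, htor _⟩ : tor P) ∈ φ b := hab' ▸ hbase a
    obtain ⟨w2, h2⟩ : (⟨(ev P (.base b)).1, htor _⟩ : tor P) ∈ φ a := hab' ▸ hbase b
    obtain ⟨e, he, hb⟩ := label P hN _ hI a b w1 h1
    obtain ⟨e', -, ha⟩ := label P hN _ hI b a w2 h2
    have h3 : a * e * e' = a := by rw [← hb]; exact ha.symm
    rw [hb, he a e' h3]

end Pool.Agent.Lib.MP_29ab50_al.TT
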